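import Pool.Agent.H63.SEP.Stmts3

/-!
Project SEP, module RG1: sequences of conditions of the same type.
-/

set_option linter.unusedVariables false
set_option linter.unusedSectionVars false
set_option synthInstance.maxSize 100000

namespace SW.SEP

open SW

section
variable {M : Type} [SetStr M] [ZF M]

theorem cpt_gR (A : AtFacts M) (s τ b : M) : cpt (gR s τ b) = gR s τ b := by
  refine the_eq (Or.inl ⟨s, τ, b, rfl, rfl⟩) ?_
  rintro z (⟨_, _, _, _, h⟩ | ⟨e, v, h, _⟩ | ⟨e, z, j, h, _⟩)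
  · exact h
  · exact absurd h A.RV
  · exact absurd h A.RF

theorem cpt_lV (A : AtFacts M) (e v : M) : cpt (lV e v) = opair one v := by
  refine the_eq (Or.inr (Or.inl ⟨e, v, rfl, rfl⟩)) ?_
  rintro z (⟨_, _, _, h, _⟩ | ⟨e', v', h, h'⟩ | ⟨e', z', j', h, _⟩)
  · exact absurd h.symm A.RV
  · rw [A.VV] at h
    rw [h', h.2]
  · exact absurd h A.VF

theorem cpt_lF (A : AtFacts M) (e z j : M) : cpt (lF e z j) = opair two j := by
  refine the_eq (Or.inr (Or.inr ⟨e, z, j, rfl, rfl⟩)) ?_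
  rintro y (⟨_, _, _, h, _⟩ | ⟨e', v', h, h'⟩ | ⟨e', z', j', h, h'⟩)
  · exact absurd h.symm A.RF
  · exact absurd h.symm A.VF
  · rw [A.FF] at h
    rw [h', h.2.2]

/-- the set of the countable parts of atoms -/
noncomputable def cptC : M := bun (prod (sing emp) (prod (sing two) (prod NDS (prod (SQ om) two))))
  (bun (prod (sing one) NDS) (prod (sing two) om))

theorem cpt_mem (A : AtFacts M) {I p a : M} (hp : E p (PS I)) (ha : E a p) : E (cpt a) cptC := by
  rcases (mem_PS.1 hp).1.2 a ha with ⟨s, τ, b, hs, hτ, hb, rfl⟩ | ⟨e, v, he, hv, rfl⟩ |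
    ⟨e, z, j, he, hz, hj, rfl⟩
  · rw [cpt_gR A]
    simp only [gR, cptC, mem_bun, mem_prod, mem_sing, true_and]
    exact Or.inl ⟨hs, hτ, hb⟩
  · rw [cpt_lV A]
    simp only [cptC, mem_bun, mem_prod, mem_sing, true_and]
    exact Or.inr (Or.inl hv)
  · rw [cpt_lF A]
    simp only [cptC, mem_bun, mem_prod, mem_sing, true_and]
    exact Or.inr (Or.inr hj)

/-- enumerations of finite sets -/
theorem fnt_enum {p : M} (hp : Fnt p) : ∃ K h, E K om ∧ ∀ a, E a p ↔ ∃ k, E k K ∧ a = app h k := by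
  obtain ⟨K, hK, h, h1, h2, h3, h4⟩ := hp
  have happ : ∀ k y, E k K → E (opair k y) h → app h k = y := fun k y hk hy =>
    the_eq hy fun z hz => h3 k z y hk hz hy
  refine ⟨K, h, hK, fun a => ⟨fun ha => ?_, ?_⟩⟩
  · obtain ⟨k, hk, hk'⟩ := h2 a ha
    exact ⟨k, hk, (happ k a hk hk').symm⟩
  · rintro ⟨k, hk, rfl⟩
    obtain ⟨y, hy, hy'⟩ := h1 k hk
    rw [happ k y hk hy']
    exact hy

end

/-- the data of a member of `BS` -/
def Rg1R {M : Type} [SetStr M] [ZF M] (I : M) (F : M → M → M → Prop) (z y : M) : Prop :=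
  ∃ p j K h, y = opair p (opair j (opair K h)) ∧ E p (PS I) ∧ E j om ∧ F p z j ∧ E K om ∧
    ∀ a, E a p ↔ ∃ k, E k K ∧ a = app h k

theorem sep_rg1 (hatm : ATMStmt) (hsqf : SQFStmt) (hcts : CTSStmt) (hchs : CHSStmt)
    (hdia : DIAStmt) (hcbt : CBTStmt) : RG1Stmt := by
  intro M _ _ I F hI hF hex
  haveI := hF
  have A := hatm M
  have S := hsqf M
  have C := hcbt M
  obtain ⟨c1, -, c2, c3, -, -⟩ := hcts M
  have hR2 : Cl2 (fun z y : M => Rg1R I F z y) := by unfold Rg1R; infer_instance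
  obtain ⟨G, hG⟩ := hchs M BS (fun z y => Rg1R I F z y) hR2 (by
    intro z hz
    obtain ⟨p, j, hp, hj, hFz⟩ := hex z hz
    obtain ⟨K, h, hK, hh⟩ := fnt_enum (mem_PS.1 hp).1.1
    exact ⟨_, p, j, K, h, rfl, hp, hj, hFz, hK, hh⟩)
  have hG' : ∀ z, E z BS → E (p1 (app G z)) (PS I) ∧ E (p1 (p2 (app G z))) om ∧
      F (p1 (app G z)) z (p1 (p2 (app G z))) ∧ E (p1 (p2 (p2 (app G z)))) om ∧
      ∀ a, E a (p1 (app G z)) ↔ ∃ k, E k (p1 (p2 (p2 (app G z)))) ∧
        a = app (p2 (p2 (p2 (app G z)))) k := by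
    intro z hz
    obtain ⟨p, j, K, h, he, h1, h2, h3, h4, h5⟩ := hG z hz
    rw [he]
    simp only [p1_opair, p2_opair]
    exact ⟨h1, h2, h3, h4, h5⟩
  have hcC : Cb (cptC : M) := by
    unfold cptC
    have s1 : ∀ x : M, Cb (sing x) := fun x => C.fin (by
      have : sing x = ins x emp := ext fun w => by simp
      rw [this]
      exact finF.ins finF.emp)
    have s2 : Cb (two : M) := C.fin (by
      have : (two : M) = ins one (ins emp emp) := ext fun w => by
        rw [A.mem2]; simp [not_mem_emp]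
      rw [this]
      exact finF.ins (finF.ins finF.emp))
    exact C.bun (C.prod (s1 _) (C.prod (s1 _) (C.prod c2 (C.prod c3 s2))))
      (C.bun (C.prod (s1 _) c2) (C.prod (s1 _) C.om))
  obtain ⟨a, s, haX, hs, hz⟩ := hdia M (prod om (prod om (SQ cptC)))
    (fun z => opair (p1 (p2 (app G z))) (opair (p1 (p2 (p2 (app G z))))
      (gr (p1 (p2 (p2 (app G z)))) (fun k => cpt (app (p2 (p2 (p2 (app G z)))) k)))))
    inferInstance (C.prod C.om (C.prod C.om (c1 _ hcC))) (by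
      intro z hz
      obtain ⟨h1, h2, h3, h4, h5⟩ := hG' z hz
      rw [mem_prod, mem_prod]
      refine ⟨h2, h4, mem_SQ.2 ⟨_, h4, S.fgr _ inferInstance fun k hk => ?_⟩⟩
      exact cpt_mem A h1 ((h5 _).2 ⟨k, hk, rfl⟩))
  obtain ⟨Z, hZ⟩ := hchs M om (fun n z => E z BS ∧ Sub (sx s n) z ∧
    opair (p1 (p2 (app G z))) (opair (p1 (p2 (p2 (app G z))))
      (gr (p1 (p2 (p2 (app G z)))) (fun k => cpt (app (p2 (p2 (p2 (app G z)))) k)))) = a)
    inferInstance hz
  refine ⟨p1 (p2 a), p1 a, s, gr om (fun n => p1 (app G (app Z n))), Z,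
    gr om (fun n => p2 (p2 (p2 (app G (app Z n))))), ?_⟩
  have hj : ∀ n, E n om → p1 (p2 (app G (app Z n))) = p1 a := fun n hn => by
    rw [← (hZ n hn).2.2, p1_opair]
  have hK : ∀ n, E n om → p1 (p2 (p2 (app G (app Z n)))) = p1 (p2 a) := fun n hn => by
    rw [← (hZ n hn).2.2, p2_opair, p1_opair]
  have hg : ∀ n, E n om → gr (p1 (p2 (p2 (app G (app Z n)))))
      (fun k => cpt (app (p2 (p2 (p2 (app G (app Z n))))) k)) = p2 (p2 a) := fun n hn => by
    rw [← (hZ n hn).2.2, p2_opair, p2_opair]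
  obtain ⟨a1, a2, ha12⟩ : ∃ a1 a2, E (p1 a) om ∧ E (p1 (p2 a)) om ∧ a1 = p1 a ∧ a2 = p2 a := by
    have h0 := hG' _ (hZ emp emp_mem_om).1
    have h1 := h0.2.1
    have h2 := h0.2.2.2.1
    rw [hj _ emp_mem_om] at h1
    rw [hK _ emp_mem_om] at h2
    exact ⟨_, _, h1, h2, rfl, rfl⟩
  refine ⟨ha12.2.1, ha12.1, hs, ?_, ?_, ?_, ?_, ?_⟩
  · intro n hn
    rw [app_gr inferInstance hn]
    exact (hG' _ (hZ n hn).1).1
  · intro n hn
    exact ⟨(hZ n hn).1, (hZ n hn).2.1⟩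
  · intro n hn
    rw [app_gr inferInstance hn]
    have h1 := (hG' _ (hZ n hn).1).2.2.1
    rw [hj n hn] at h1
    exact h1
  · intro n hn b
    rw [app_gr inferInstance hn, app_gr inferInstance hn]
    have h1 := (hG' _ (hZ n hn).1).2.2.2.2 b
    rw [hK n hn] at h1
    exact h1
  · intro n m k hn hm hk
    rw [app_gr inferInstance hn, app_gr inferInstance hm]
    have h1 := congrArg (fun y => app y k) (hg n hn)
    have h2 := congrArg (fun y => app y k) (hg m hm)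
    rw [app_gr inferInstance (by rw [hK n hn]; exact hk)] at h1
    rw [app_gr inferInstance (by rw [hK m hm]; exact hk)] at h2
    rw [h1, h2]

end SW.SEP
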