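import Pool.Agent.H21.SEP.RG1

/-!
Project SEP, module RG2: thinning out a sequence of conditions of the same type.
-/

set_option linter.unusedVariables false
set_option linter.unusedSectionVars false
set_option synthInstance.maxSize 100000

namespace SW.SEP

open SW

section
variable {M : Type} [SetStr M] [ZF M]

theorem rg2_card_nat : ∀ n : M, E n om → card n = n := by
  refine om_ind (C := fun n : M => card n = n) inferInstance ?_ ?_
  · exact finF.card_emp
  · intro n hn ih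
    have : suc n = ins n n := rfl
    rw [this, finF.card_ins (finF.nat hn) (not_mem_self n), ih]
    rfl

theorem rg2_not_fnt_om : ¬ Fnt (om : M) := by
  intro h
  have h1 : E (card (om : M)) om := finF.card_om h
  have h2 : ∀ n : M, E n om → E n (card (om : M)) := by
    intro n hn
    have h3 : E (card n) (card (om : M)) := by
      refine finF.card_lt h (Trans_om n hn) ?_
      rintro rfl
      exact not_mem_self _ hn
    rwa [rg2_card_nat n hn] at h3
  exact not_mem_self _ (h2 _ h1)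

/-- finite unions of finite sets -/
theorem rg2_fun {X A : M} (B : M → M → Prop) (hB : Cl2 B) (hX : Fnt X)
    (h : ∀ x, E x X → Fnt (sep A (fun n => B x n))) :
    Fnt (sep A (fun n => ∃ x, E x X ∧ B x n)) := by
  refine finF.sub (x := sUn (img X (fun x => sep A (fun n => B x n)))) ?_ ?_
  · refine finF.sUn (finF.img _ inferInstance hX) fun y hy => ?_
    rw [mem_img] at hy
    obtain ⟨x, hx, rfl⟩ := hy
    exact h x hx
  · intro n hn
    rw [mem_sep] at hn
    obtain ⟨hnA, x, hx, hxn⟩ := hn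
    exact mem_sUn.2 ⟨_, mem_img.2 ⟨x, hx, rfl⟩, mem_sep.2 ⟨hnA, hxn⟩⟩

/-- a bound for the lengths of the nodes in a finite set of atoms -/
theorem rg2_bd (x : M) (hx : Fnt x) (A : AtFacts M) : ∃ L, E L om ∧ ∀ e v, E (lV e v) x →
    E (dmn v) om → E (dmn v) L := by
  refine finF.ind (fun x => ∃ L, E L om ∧ ∀ e v, E (lV e v) x → E (dmn v) om → E (dmn v) L)
    inferInstance ?_ ?_ x hx
  · exact ⟨emp, emp_mem_om, fun e v h => absurd h (not_mem_emp _)⟩
  · rintro x a hx - ⟨L, hL, h⟩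
    by_cases ha : ∃ e v, a = lV e v ∧ E (dmn v) om
    · obtain ⟨e, v, rfl, hv⟩ := ha
      have hs := suc_mem_om hv
      rcases (Ord_nat hL).tri (Ord_nat hs) with h1 | h1 | h1
      · refine ⟨suc (dmn v), hs, fun e' v' h2 h3 => ?_⟩
        rcases mem_ins.1 h2 with h4 | h4
        · exact (Ord_nat hs).1 L h1 _ (h e' v' h4 h3)
        · rw [A.VV] at h4
          rw [h4.2]; simp
      · refine ⟨L, hL, fun e' v' h2 h3 => ?_⟩
        rcases mem_ins.1 h2 with h4 | h4
        · exact h e' v' h4 h3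
        · rw [A.VV] at h4
          rw [h4.2, h1]; simp
      · refine ⟨L, hL, fun e' v' h2 h3 => ?_⟩
        rcases mem_ins.1 h2 with h4 | h4
        · exact h e' v' h4 h3
        · rw [A.VV] at h4
          rw [h4.2]
          exact (Ord_nat hL).1 _ h1 _ (by simp)
    · refine ⟨L, hL, fun e' v' h2 h3 => ?_⟩
      rcases mem_ins.1 h2 with h4 | h4
      · exact h e' v' h4 h3
      · exact absurd ⟨e', v', h4.symm, h3⟩ ha

/-- the convergence property for the promises number `k` -/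
def Rg2Y (h A k y : M) : Prop := E y BS ∧ ∀ D, Fnt D → Fnt (sep A (fun n =>
  ∃ l, E l om ∧ E (res (p1 (p2 (p2 (app (app h n) k)))) l) D ∧
    ¬ res y l = res (p1 (p2 (p2 (app (app h n) k)))) l))

theorem Rg2Y_df : Df (fun v : Fin 4 → M => Rg2Y (v 0) (v 1) (v 2) (v 3)) := by
  unfold Rg2Y; infer_instance

instance {n : ℕ} {t s u x : (Fin n → M) → M} [ht : DfT t] [hs : DfT s] [hu : DfT u]
    [hx : DfT x] : Df (fun v => Rg2Y (t v) (s v) (u v) (x v)) :=
  Rg2Y_df.comp4 ht hs hu hx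

/-- the atoms number `k` are promises -/
def Rg2F (h k : M) : Prop := ∀ n, E n om → ∃ e z i, app (app h n) k = lF e z i

instance {n : ℕ} {t s : (Fin n → M) → M} [ht : DfT t] [hs : DfT s] :
    Df (fun v => Rg2F (t v) (s v)) := by unfold Rg2F; infer_instance

/-- the property which is obtained by thinning out -/
def Rg2P (h k A : M) : Prop :=
  ((∀ n m, E n A → E m A → p1 (app (app h n) k) = p1 (app (app h m) k)) ∨
    ∀ x, Fnt (sep A (fun n => p1 (app (app h n) k) = x))) ∧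
  (Rg2F h k → ∃ y, Rg2Y h A k y)

theorem Rg2P_df (h : M) : Cl2 (fun k A : M => Rg2P h k A) := by unfold Rg2P; infer_instance

end

theorem sep_rg2 (hatm : ATMStmt) (hpsf : PSFStmt) (hdik : DIKStmt) (hlim : LIM1Stmt)
    (hchs : CHSStmt) : RG2Stmt := by
  intro M _ _ I F K j s f g h hI H
  have A := hatm M
  have P := hpsf M
  -- the kinds of atoms
  have hat : ∀ n k, E n om → E k K → E (app (app h n) k) (app f n) := fun n k hn hk =>
    (H.h1 n hn _).2 ⟨k, hk, rfl⟩
  have hkd : ∀ n k, E n om → E k K →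
      (∃ s τ b, app (app h n) k = gR s τ b) ∨ (∃ e v, E e I ∧ app (app h n) k = lV e v) ∨
      (∃ e z j, E e I ∧ E z BS ∧ app (app h n) k = lF e z j) := by
    intro n k hn hk
    rcases (mem_PS.1 (H.f1 n hn)).1.2 _ (hat n k hn hk) with ⟨s, τ, b, hs, hτ, hb, h1⟩ |
      ⟨e, v, he, hv, h1⟩ | ⟨e, z, j, he, hz, hj, h1⟩
    · exact Or.inl ⟨s, τ, b, h1⟩
    · exact Or.inr (Or.inl ⟨e, v, he, h1⟩)
    · exact Or.inr (Or.inr ⟨e, z, j, he, hz, h1⟩)
  have hone : (one : M) ≠ emp := fun h => A.ne01 h.symm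
  -- kinds are constant
  have hkF : ∀ n k e z i, E n om → E k K → app (app h n) k = lF e z i →
      Rg2F h k := by
    intro n k e z i hn hk h1 m hm
    have h2 := H.ty n m k hn hm hk
    rw [h1, cpt_lF A] at h2
    rcases hkd m k hm hk with ⟨s, τ, b, h3⟩ | ⟨e', v, _, h3⟩ | ⟨e', z', j', _, _, h3⟩
    · rw [h3, cpt_gR A, gR, opair_inj] at h2
      exact absurd h2.1.symm A.ne02
    · rw [h3, cpt_lV A, opair_inj] at h2
      exact absurd h2.1.symm A.ne12
    · exact ⟨e', z', j', h3⟩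
  have hkV : ∀ n m k e v, E n om → E m om → E k K → app (app h n) k = lV e v →
      ∃ e', app (app h m) k = lV e' v := by
    intro n m k e v hn hm hk h1
    have h2 := H.ty n m k hn hm hk
    rw [h1, cpt_lV A] at h2
    rcases hkd m k hm hk with ⟨s, τ, b, h3⟩ | ⟨e', v', _, h3⟩ | ⟨e', z', j', _, _, h3⟩
    · rw [h3, cpt_gR A, gR, opair_inj] at h2
      exact absurd h2.1 hone
    · rw [h3, cpt_lV A, opair_inj] at h2
      exact ⟨e', by rw [h3, ← h2.2]⟩
    · rw [h3, cpt_lF A, opair_inj] at h2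
      exact absurd h2.1 A.ne12
  have hkR : ∀ n m k s τ b, E n om → E m om → E k K → app (app h n) k = gR s τ b →
      app (app h m) k = gR s τ b := by
    intro n m k s τ b hn hm hk h1
    have h2 := H.ty n m k hn hm hk
    rw [h1, cpt_gR A] at h2
    rcases hkd m k hm hk with ⟨s', τ', b', h3⟩ | ⟨e', v', _, h3⟩ | ⟨e', z', j', _, _, h3⟩
    · rw [h3, cpt_gR A] at h2
      rw [h3, h2]
    · rw [h3, cpt_lV A, gR, opair_inj] at h2
      exact absurd h2.1.symm hone
    · rw [h3, cpt_lF A, gR, opair_inj] at h2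
      exact absurd h2.1 A.ne02
  -- thinning out
  obtain ⟨A1, hA1o, hA1i, hA1⟩ := hdik M (fun k A => Rg2P h k A) (Rg2P_df h) (by
      rintro k A A' ⟨h1, h2⟩ hs
      refine ⟨?_, fun h3 => ?_⟩
      · rcases h1 with h1 | h1
        · exact Or.inl fun n m hn hm => h1 n m (hs n hn) (hs m hm)
        · exact Or.inr fun x => finF.sub (h1 x) fun n hn => by
            rw [mem_sep] at hn ⊢
            exact ⟨hs n hn.1, hn.2⟩
      · obtain ⟨y, hy, hy'⟩ := h2 h3
        exact ⟨y, hy, fun D hD => finF.sub (hy' D hD) fun n hn => by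
            rw [mem_sep] at hn ⊢
            exact ⟨hs n hn.1, hn.2⟩⟩) K H.K1 (by
      intro k A hk hAo hAi
      obtain ⟨A1, hA1, hA1i, h1⟩ : ∃ A1, Sub A1 A ∧ ¬ Fnt A1 ∧
          ((∀ n m, E n A1 → E m A1 → p1 (app (app h n) k) = p1 (app (app h m) k)) ∨
          ∀ x, Fnt (sep A1 (fun n => p1 (app (app h n) k) = x))) := by
        by_cases hx : ∀ x, Fnt (sep A (fun n => p1 (app (app h n) k) = x))
        · exact ⟨A, Sub.refl A, hAi, Or.inr hx⟩
        · rw [not_forall] at hx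
          obtain ⟨x, hx⟩ := hx
          refine ⟨sep A (fun n => p1 (app (app h n) k) = x), fun n hn => (mem_sep.1 hn).1, hx,
            Or.inl fun n m hn hm => ?_⟩
          rw [(mem_sep.1 hn).2, (mem_sep.1 hm).2]
      by_cases hF : Rg2F h k
      · obtain ⟨A', y, h2, h3, h4, h5⟩ := hlim M (fun n => p1 (p2 (p2 (app (app h n) k))))
          inferInstance (by
            intro n hn
            obtain ⟨e, z, i, h6⟩ := hF n hn
            have h7 := hat n k hn hk
            rw [h6] at h7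
            have h8 := (P.lFm (H.f1 n hn) h7).2.1
            rw [h6]
            simpa only [lF, p1_opair, p2_opair] using h8) A1 (Sub.trans hA1 hAo) hA1i
        refine ⟨A', Sub.trans h2 hA1, h3, ?_, fun _ => ⟨y, h4, h5⟩⟩
        rcases h1 with h1 | h1
        · exact Or.inl fun n m hn hm => h1 n m (h2 n hn) (h2 m hm)
        · exact Or.inr fun x => finF.sub (h1 x) fun n hn => by
            rw [mem_sep] at hn ⊢
            exact ⟨h2 n hn.1, hn.2⟩
      · exact ⟨A1, hA1, hA1i, h1, fun h => absurd h hF⟩) om (Sub.refl om) rg2_not_fnt_om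
  obtain ⟨n0, hn0⟩ : ∃ n0, E n0 A1 := by
    by_contra hc
    push Not at hc
    exact hA1i (by rw [eq_emp hc]; exact finF.emp)
  have hn0o := hA1o n0 hn0
  have hKf : Fnt K := finF.nat H.K1
  -- the constant values
  have hCs : ∀ k, E k K → ¬ (∀ n m, E n A1 → E m A1 →
      p1 (app (app h n) k) = p1 (app (app h m) k)) →
      ∀ x, Fnt (sep A1 (fun n => p1 (app (app h n) k) = x)) := fun k hk hc =>
    ((hA1 k hk).1).resolve_left hc
  obtain ⟨R0, hR0, hR0f⟩ : ∃ R0 : M, (∀ x, E x R0 ↔ ∃ k, E k K ∧ (∀ n m, E n A1 → E m A1 →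
      p1 (app (app h n) k) = p1 (app (app h m) k)) ∧ x = p1 (app (app h n0) k)) ∧ Fnt R0 := by
    refine ⟨img (sep K (fun k => ∀ n m, E n A1 → E m A1 →
      p1 (app (app h n) k) = p1 (app (app h m) k))) (fun k => p1 (app (app h n0) k)), ?_, ?_⟩
    · intro x
      rw [mem_img]
      constructor
      · rintro ⟨k, hk, rfl⟩
        rw [mem_sep] at hk
        exact ⟨k, hk.1, hk.2, rfl⟩
      · rintro ⟨k, hk, hk', rfl⟩
        exact ⟨k, mem_sep.2 ⟨hk, hk'⟩, rfl⟩
    · exact finF.img _ inferInstance (finF.sub hKf fun k hk => (mem_sep.1 hk).1)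
  -- the finite set to be removed
  have hB : Fnt (sep A1 (fun n => ∃ k, E k K ∧ ¬ (∀ n m, E n A1 → E m A1 →
      p1 (app (app h n) k) = p1 (app (app h m) k)) ∧ E (p1 (app (app h n) k)) R0)) := by
    refine rg2_fun (fun k n => ¬ (∀ n m, E n A1 → E m A1 →
      p1 (app (app h n) k) = p1 (app (app h m) k)) ∧ E (p1 (app (app h n) k)) R0)
      inferInstance hKf fun k hk => ?_
    by_cases hc : ∀ n m, E n A1 → E m A1 → p1 (app (app h n) k) = p1 (app (app h m) k)
    · refine finF.sub finF.emp fun n hn => ?_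
      exact absurd hc (mem_sep.1 hn).2.1
    · refine finF.sub (rg2_fun (X := R0) (A := A1) (fun x n => p1 (app (app h n) k) = x)
        inferInstance hR0f fun x _ => hCs k hk hc x) fun n hn => ?_
      rw [mem_sep] at hn ⊢
      exact ⟨hn.1, _, hn.2.2, rfl⟩
  obtain ⟨A2, hA2, hA2i⟩ : ∃ A2 : M, (∀ n, E n A2 ↔ E n A1 ∧ ∀ k, E k K →
      E (p1 (app (app h n) k)) R0 → (∀ n m, E n A1 → E m A1 →
      p1 (app (app h n) k) = p1 (app (app h m) k))) ∧ ¬ Fnt A2 := by
    refine ⟨sep A1 (fun n => ∀ k, E k K → E (p1 (app (app h n) k)) R0 →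
      (∀ n m, E n A1 → E m A1 → p1 (app (app h n) k) = p1 (app (app h m) k))),
      fun n => mem_sep, fun hf => hA1i (finF.sub (finF.bun hf hB) fun n hn => ?_)⟩
    rw [mem_bun]
    by_cases hc : ∀ k, E k K → E (p1 (app (app h n) k)) R0 →
      (∀ n m, E n A1 → E m A1 → p1 (app (app h n) k) = p1 (app (app h m) k))
    · exact Or.inl (mem_sep.2 ⟨hn, hc⟩)
    · right
      rw [not_forall] at hc
      obtain ⟨k, hc⟩ := hc
      rw [Classical.not_imp, Classical.not_imp] at hc
      exact mem_sep.2 ⟨hn, k, hc.1, hc.2.2, hc.2.1⟩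
  have hA21 : Sub A2 A1 := fun n hn => ((hA2 n).1 hn).1
  have hA2o : Sub A2 om := Sub.trans hA21 hA1o
  -- the limits
  obtain ⟨Yf, hYf⟩ := hchs M (sep K (fun k => Rg2F h k)) (fun k y => Rg2Y h A1 k y)
    inferInstance (by
      intro k hk
      rw [mem_sep] at hk
      exact (hA1 k hk.1).2 hk.2)
  obtain ⟨R, hR, hRf⟩ : ∃ R : M, (∀ x, E x R ↔ E x R0 ∧ x ≠ emp) ∧ Fnt R :=
    ⟨sep R0 (fun x => x ≠ emp), fun x => mem_sep, finF.sub hR0f fun x hx => (mem_sep.1 hx).1⟩
  have happ : ∀ n, E n om → ∀ a, E a (app f n) → ∃ k, E k K ∧ a = app (app h n) k :=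
    fun n hn a ha => (H.h1 n hn a).1 ha
  refine ⟨A2, R, img (sep K (fun k => Rg2F h k)) (fun k => app Yf k), ?_⟩
  refine ⟨hA2o, hA2i, hRf, ?_, ?_, ?_, H.j1, H.s1, fun n hn => H.f1 n (hA2o n hn),
    fun n hn => H.g1 n (hA2o n hn), fun n hn => H.F1 n (hA2o n hn), ?_, ?_, ?_, ?_, ?_⟩
  · intro x hx
    obtain ⟨hx0, hxe⟩ := (hR x).1 hx
    obtain ⟨k, hk, -, rfl⟩ := (hR0 x).1 hx0
    rcases hkd n0 k hn0o hk with ⟨s, τ, b, h3⟩ | ⟨e', v', h4, h3⟩ | ⟨e', z', j', h4, _, h3⟩
    · rw [h3, gR, p1_opair] at hxe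
      exact absurd rfl hxe
    · rw [h3, lV, p1_opair]; exact h4
    · rw [h3, lF, p1_opair]; exact h4
  · exact finF.img _ inferInstance (finF.sub hKf fun k hk => (mem_sep.1 hk).1)
  · intro y hy
    rw [mem_img] at hy
    obtain ⟨k, hk, rfl⟩ := hy
    exact (hYf k hk).1
  · -- gl
    intro n m s τ b hn hm hs
    obtain ⟨k, hk, h3⟩ := happ n (hA2o n hn) _ hs
    have h4 := hkR n m k s τ b (hA2o n hn) (hA2o m hm) hk h3.symm
    rw [← h4]
    exact hat m k (hA2o m hm) hk
  · -- ix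
    intro D hD
    refine finF.sub (rg2_fun (X := K) (A := A1) (fun k n => ∃ e, E e D ∧
      ¬ (∀ n m, E n A1 → E m A1 → p1 (app (app h n) k) = p1 (app (app h m) k)) ∧
      p1 (app (app h n) k) = e) inferInstance hKf fun k hk => ?_) fun n hn => ?_
    · by_cases hc : ∀ n m, E n A1 → E m A1 → p1 (app (app h n) k) = p1 (app (app h m) k)
      · refine finF.sub finF.emp fun n hn => ?_
        obtain ⟨e, he, h5, _⟩ := (mem_sep.1 hn).2
        exact absurd hc h5
      · refine finF.sub (rg2_fun (X := D) (A := A1) (fun x n => p1 (app (app h n) k) = x)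
          inferInstance hD fun x _ => hCs k hk hc x) fun n hn => ?_
        rw [mem_sep] at hn ⊢
        obtain ⟨hn1, e, he, h5, h6⟩ := hn
        exact ⟨hn1, e, he, h6⟩
    · rw [mem_sep] at hn ⊢
      obtain ⟨hn2, e, x, he, hee, heR, hex⟩ := hn
      obtain ⟨k, hk, h3⟩ := happ n (hA2o n hn2) _ hex
      have h4 : p1 (app (app h n) k) = e := by rw [← h3, p1_opair]
      refine ⟨hA21 n hn2, k, hk, e, he, fun hc => heR ((hR e).2 ⟨(hR0 e).2 ⟨k, hk, hc, ?_⟩, hee⟩),
        h4⟩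
      rw [← h4]
      exact hc n n0 (hA21 n hn2) hn0
  · -- nd
    intro n m e v hn hm heR hev
    obtain ⟨k, hk, h3⟩ := happ n (hA2o n hn) _ hev
    have h4 : p1 (app (app h n) k) = e := by rw [← h3, lV, p1_opair]
    have hc := ((hA2 n).1 hn).2 k hk (by rw [h4]; exact ((hR e).1 heR).1)
    obtain ⟨e', h5⟩ := hkV n m k e v (hA2o n hn) (hA2o m hm) hk h3.symm
    have h6 := hc n m (hA21 n hn) (hA21 m hm)
    rw [h4, h5, lV, p1_opair] at h6
    rw [h6, ← h5]
    exact hat m k (hA2o m hm) hk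
  · -- lm
    intro D hD
    refine finF.sub (rg2_fun (X := sep K (fun k => Rg2F h k)) (A := A1) (fun k n =>
      ∃ l, E l om ∧ E (res (p1 (p2 (p2 (app (app h n) k)))) l) D ∧
      ¬ res (app Yf k) l = res (p1 (p2 (p2 (app (app h n) k)))) l) inferInstance
      (finF.sub hKf fun k hk => (mem_sep.1 hk).1) fun k hk => (hYf k hk).2 D hD) fun n hn => ?_
    rw [mem_sep] at hn ⊢
    obtain ⟨hn2, e, z, i, l, h3, h4, h5, h6⟩ := hn
    obtain ⟨k, hk, h7⟩ := happ n (hA2o n hn2) _ h3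
    have h8 : p1 (p2 (p2 (app (app h n) k))) = z := by rw [← h7, lF]; simp only [p1_opair, p2_opair]
    have h9 := hkF n k e z i (hA2o n hn2) hk h7.symm
    refine ⟨hA21 n hn2, k, mem_sep.2 ⟨hk, h9⟩, l, h4, ?_, ?_⟩
    · rw [h8]; exact h5
    · rw [h8]
      exact h6 _ (mem_img.2 ⟨k, mem_sep.2 ⟨hk, h9⟩, rfl⟩)
  · -- bd
    obtain ⟨L, hL, h3⟩ := rg2_bd (app f n0) (P.fnt (H.f1 n0 hn0o)) A
    refine ⟨L, hL, fun n e v hn hev => ?_⟩
    obtain ⟨k, hk, h4⟩ := happ n (hA2o n hn) _ hev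
    obtain ⟨e', h5⟩ := hkV n n0 k e v (hA2o n hn) hn0o hk h4.symm
    have h6 := hat n0 k hn0o hk
    rw [h5] at h6
    have h7 := (P.lVm (H.f1 n (hA2o n hn)) hev).2
    obtain ⟨m, hm, h8⟩ := mem_SQ.1 h7
    have h9 : dmn v = m := by
      refine ext fun x => ?_
      rw [mem_dmn]
      constructor
      · rintro ⟨y, hy⟩
        obtain ⟨x', y', hx', _, h10⟩ := h8.1 _ hy
        rw [opair_inj] at h10
        rw [h10.1]; exact hx'
      · exact fun hx => h8.2.1 x hx
    exact h3 e' v h6 (by rw [h9]; exact hm)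

end SW.SEP
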