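import Pool.Agent.H21.SEP.RG2

/-!
Project SEP, module RGM: the rigidity theorem, in the model.
-/

set_option linter.unusedVariables false
set_option linter.unusedSectionVars false
set_option synthInstance.maxSize 100000

namespace SW.SEP

open SW

section
variable {M : Type} [SetStr M] [ZF M]

/-- `m` is the largest length of a node of `e` in `p`, or `emp` -/
def RgmM (p e m : M) : Prop := (m = emp ∧ ∀ v, ¬ E (lV e v) p) ∨
  ∃ v, E (lV e v) p ∧ m = dmn v ∧ ∀ v', E (lV e v') p → Sub v' v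

instance {n : ℕ} {t s u : (Fin n → M) → M} [ht : DfT t] [hs : DfT s] [hu : DfT u] :
    Df (fun v => RgmM (t v) (s v) (u v)) := by unfold RgmM; infer_instance

theorem rgm_ex (A : AtFacts M) (P : PsFacts M) (S : SqFacts M) {I p : M} (hp : E p (PS I))
    {L : M} (hL : E L om) (hb : ∀ e v, E (lV e v) p → E (dmn v) L) (e : M) :
    ∃ m, E m (suc L) ∧ E m om ∧ RgmM p e m := by
  by_cases h : ∃ v, E (lV e v) p
  · obtain ⟨v0, hv0⟩ := h
    have hdm : ∀ v, E (lV e v) p → E (dmn v) om ∧ Fnc (dmn v) LL v := fun v hv =>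
      S.dm (P.lVm hp hv).2
    obtain ⟨n, hn, ⟨v, hv, hvn⟩, hmax⟩ := nat_max (C := fun n => ∃ v, E (lV e v) p ∧ dmn v = n)
      inferInstance hL ⟨dmn v0, (hdm v0 hv0).1, v0, hv0, rfl⟩ (by
        rintro n hn ⟨v, hv, rfl⟩
        exact (Ord_nat hL).1 _ (hb e v hv))
    subst hvn
    refine ⟨dmn v, ?_, hn, Or.inr ⟨v, hv, rfl, fun v' hv' => ?_⟩⟩
    · rw [mem_suc]; exact Or.inl (hb e v hv)
    · rcases (mem_PS.1 hp).2.2.1 e v v' hv hv' with h1 | h1
      · rcases S.cmpd (P.lVm hp hv).2 (P.lVm hp hv').2 h1 with h2 | h2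
        · rw [h2]; exact Sub.refl _
        · exact absurd (hmax _ (hdm v' hv').1 ⟨v', hv', rfl⟩ _ h2) (not_mem_self _)
      · exact h1
  · refine ⟨emp, ?_, emp_mem_om, Or.inl ⟨rfl, fun v hv => h ⟨v, hv⟩⟩⟩
    rw [mem_suc]
    by_cases h0 : L = emp
    · exact Or.inr h0.symm
    · exact Or.inl (emp_mem_ord (Ord_nat hL) h0)

/-- the new promises -/
def RgmC (p R Y w : M) : Prop := ∃ e y m, E e R ∧ E y Y ∧ E m om ∧ RgmM p e m ∧ w = lF e y m

instance {p R Y : M} : Cl (fun w => RgmC p R Y w) := by unfold RgmC; infer_instance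

/-- adding promises to a condition -/
theorem rgm_add (A : AtFacts M) (P : PsFacts M) (S : SqFacts M) {I p R Y : M}
    (hp : E p (PS I)) (hR : Fnt R) (hRI : Sub R I) (hY : Fnt Y) (hYB : Sub Y BS) :
    ∃ q, E q (PS I) ∧ Sub p q ∧ ∀ e y, E e R → E y Y → ∃ m, E (lF e y m) q ∧
      (m = emp ∨ ∃ v, E (lV e v) p ∧ m = dmn v) := by
  obtain ⟨L, hL, hb⟩ := rg2_bd p (P.fnt hp) A
  have hb' : ∀ e v, E (lV e v) p → E (dmn v) L := fun e v hv =>
    hb e v hv (S.dm (P.lVm hp hv).2).1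
  obtain ⟨W, hW, hWf⟩ : ∃ W : M, (∀ w, E w W ↔ ∃ e y m, E e R ∧ E y Y ∧ E m (suc L) ∧
      E m om ∧ RgmM p e m ∧ w = lF e y m) ∧ Fnt W := by
    refine ⟨img (sep (prod R (prod Y (suc L))) (fun t => E (p2 (p2 t)) om ∧
      RgmM p (p1 t) (p2 (p2 t)))) (fun t => lF (p1 t) (p1 (p2 t)) (p2 (p2 t))), ?_, ?_⟩
    · intro w
      rw [mem_img]
      constructor
      · rintro ⟨t, ht, rfl⟩
        rw [mem_sep] at ht
        obtain ⟨h1, h2, h3⟩ := ht
        obtain ⟨e, u, he, hu, rfl⟩ := mem_prod'.1 h1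
        obtain ⟨y, m, hy, hm, rfl⟩ := mem_prod'.1 hu
        simp only [p1_opair, p2_opair] at h2 h3 ⊢
        exact ⟨e, y, m, he, hy, hm, h2, h3, rfl⟩
      · rintro ⟨e, y, m, he, hy, hm, h2, h3, rfl⟩
        refine ⟨opair e (opair y m), mem_sep.2 ⟨mem_prod.2 ⟨he, mem_prod.2 ⟨hy, hm⟩⟩, ?_⟩, ?_⟩
        · simp only [p1_opair, p2_opair]
          exact ⟨h2, h3⟩
        · simp only [p1_opair, p2_opair]
    · exact finF.img _ inferInstance (finF.sub (finF.prod hR (finF.prod hY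
        (finF.nat (suc_mem_om hL)))) fun t ht => (mem_sep.1 ht).1)
  obtain ⟨⟨c0, c1⟩, c2, c3, c4, c5, c6⟩ := mem_PS.1 hp
  have hpq : Sub p (bun p W) := fun z hz => mem_bun.2 (Or.inl hz)
  have hRm : ∀ {s τ b : M}, E (gR s τ b) (bun p W) → E (gR s τ b) p := by
    intro s τ b h
    rcases mem_bun.1 h with h | h
    · exact h
    · obtain ⟨e, y, m, _, _, _, _, _, h1⟩ := (hW _).1 h
      exact absurd h1 A.RF
  have hVm : ∀ {e v : M}, E (lV e v) (bun p W) → E (lV e v) p := by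
    intro e v h
    rcases mem_bun.1 h with h | h
    · exact h
    · obtain ⟨e, y, m, _, _, _, _, _, h1⟩ := (hW _).1 h
      exact absurd h1 A.VF
  refine ⟨bun p W, mem_PS.2 ⟨⟨finF.bun c0 hWf, ?_⟩, ?_, ?_, ?_, ?_, ?_⟩, hpq, ?_⟩
  · intro a ha
    rcases mem_bun.1 ha with ha | ha
    · exact c1 a ha
    · obtain ⟨e, y, m, he, hy, _, hm, _, rfl⟩ := (hW _).1 ha
      exact Or.inr (Or.inr ⟨e, y, m, hRI e he, hYB y hy, hm, rfl⟩)
  · exact fun s τ b b' h h' => c2 s τ b b' (hRm h) (hRm h')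
  · exact fun e v v' h h' => c3 e v v' (hVm h) (hVm h')
  · intro e z j v s h h' hs hsv hj
    rcases mem_bun.1 h with h | h
    · exact hpq _ (c4 e z j v s h (hVm h') hs hsv hj)
    · exfalso
      obtain ⟨e', y, m, he, hy, _, hm, hmm, h1⟩ := (hW _).1 h
      rw [A.FF] at h1
      obtain ⟨rfl, rfl, rfl⟩ := h1
      rcases hmm with ⟨_, h2⟩ | ⟨v0, h2, h3, h4⟩
      · exact h2 v (hVm h')
      · have h5 : Sub s v0 := Sub.trans hsv (h4 v (hVm h'))
        have h6 := (S.sub hs (S.dm (P.lVm hp h2).2).2 h5).1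
        rw [h3] at hj
        exact not_mem_self _ (h6 _ hj)
  · exact fun e v h => c5 e v (hVm h)
  · intro B r q0 x i t v h
    obtain ⟨h2, h3⟩ := c6 B r q0 x i t v (hVm h)
    refine ⟨Sub.trans h2 hpq, fun n a hna => ?_⟩
    obtain ⟨a0, c', c, h4, h5, h6, h7, ⟨q', h8, h9⟩, v', h10, h11⟩ := h3 n a hna
    exact ⟨a0, c', c, h4, h5, h6, h7, ⟨q', Sub.trans h8 hpq, h9⟩, v', hpq _ h10, h11⟩
  · intro e y he hy
    obtain ⟨m, hm, hmo, hmm⟩ := rgm_ex A P S hp hL hb' e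
    refine ⟨m, mem_bun.2 (Or.inr ((hW _).2 ⟨e, y, m, he, hy, hm, hmo, hmm, rfl⟩)), ?_⟩
    rcases hmm with ⟨h2, _⟩ | ⟨v0, h2, h3, _⟩
    · exact Or.inl h2
    · exact Or.inr ⟨v0, h2, h3⟩

end

theorem sep_rgm (hatm : ATMStmt) (hpsf : PSFStmt) (hsqf : SQFStmt) (hrgq : RGQStmt)
    (hrg1 : RG1Stmt) (hrg2 : RG2Stmt) : RGMStmt := by
  intro M _ _ I p0 F D hI hp0 hF hD hmono hex hdec hcon
  have := hF
  have A := hatm M
  have P := hpsf M
  have S := hsqf M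
  obtain ⟨K, j, s, f, g, h, H0⟩ := hrg1 M I (fun p z j => F p z j ∧ Sub p0 p) hI inferInstance (by
    intro z hz
    obtain ⟨p, j, h1, h2, h3, h4⟩ := hex z hz
    exact ⟨p, j, h1, h3, h4, h2⟩)
  obtain ⟨T, R, Y, H⟩ := hrg2 M I _ K j s f g h hI H0
  obtain ⟨n0, hn0⟩ : ∃ n0, E n0 T := by
    by_contra hc
    push Not at hc
    exact H.A2 (by rw [eq_emp hc]; exact finF.emp)
  obtain ⟨pp, hpp, hpsub, hpm⟩ := rgm_add A P S (H.f1 n0 hn0) H.R1 H.R2 H.Y1 H.Y2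
  have hsd := (S.dm H.s1).1
  -- a bound for `j` and the length of `s`
  obtain ⟨k, hk, hjk, hsk⟩ : ∃ k, E k om ∧ Sub j k ∧ Sub (dmn s) k := by
    rcases (Ord_nat H.j1).tri (Ord_nat hsd) with h1 | h1 | h1
    · exact ⟨dmn s, hsd, (Ord_nat hsd).1 _ h1, Sub.refl _⟩
    · exact ⟨dmn s, hsd, by rw [h1]; exact Sub.refl _, Sub.refl _⟩
    · exact ⟨j, H.j1, Sub.refl _, (Ord_nat H.j1).1 _ h1⟩
  obtain ⟨q, n, s0, hq, hpq, hn, hkn, hs0, hs0n, hDq, hR⟩ := hdec pp R k hpp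
    (Sub.trans (H.F1 n0 hn0).2 hpsub) H.R1 H.R2 hk
  have hlt : ∀ {a : M}, E a om → Sub a k → E a n := by
    intro a ha hak
    rcases ((Ord_nat ha).sub_iff (Ord_nat hk)).1 hak with h1 | h1
    · exact (Ord_nat hn).1 k hkn a h1
    · rw [h1]; exact hkn
  have hjn : E j n := hlt H.j1 hjk
  have hsn : E (dmn s) n := hlt hsd hsk
  have hqf := P.fnt hq
  -- the forbidden numbers
  have hB1 := H.ix (img q (fun t => p1 t)) (finF.img _ inferInstance hqf)
  have hB2 := H.lm (img q (fun t => p1 (p2 (p2 (p2 t))))) (finF.img _ inferInstance hqf)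
  have hgm : ∀ m, E m T → app (res (app g m) n) (dmn s) = m := by
    intro m hm
    obtain ⟨h1, h2⟩ := H.g1 m hm
    have h3 := mem_BS.1 h1
    have h4 : E (opair (dmn s) m) (app g m) := h2 _ (by unfold sx; simp)
    refine the_eq (opair_mem_res.2 ⟨h4, hsn⟩) fun z hz => ?_
    exact h3.2.2 _ _ _ (opair_mem_res.1 hz).1 h4
  have hB3 : Fnt (sep T (fun m => E (res (app g m) n) (img q (fun t => p1 (p2 (p2 (p2 t))))))) := by
    refine finF.sub (finF.img (fun τ => app τ (dmn s)) inferInstance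
      (finF.img (fun t : M => p1 (p2 (p2 (p2 t)))) inferInstance hqf)) fun m hm => ?_
    rw [mem_sep] at hm
    exact mem_img.2 ⟨_, hm.2, (hgm m hm.1).symm⟩
  obtain ⟨m, hmT, hm1, hm2, hm3⟩ : ∃ m, E m T ∧
      ¬ E m (sep T (fun n => ∃ e x, E e (img q (fun t => p1 t)) ∧ e ≠ emp ∧ ¬ E e R ∧
        E (opair e x) (app f n))) ∧
      ¬ E m (sep T (fun n => ∃ e z i l, E (lF e z i) (app f n) ∧
        E l om ∧ E (res z l) (img q (fun t => p1 (p2 (p2 (p2 t))))) ∧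
        ∀ y, E y Y → ¬ res y l = res z l)) ∧
      ¬ E m (sep T (fun m => E (res (app g m) n) (img q (fun t => p1 (p2 (p2 (p2 t))))))) := by
    by_contra hc
    push Not at hc
    refine H.A2 (finF.sub (finF.bun hB1 (finF.bun hB2 hB3)) fun m hm => ?_)
    rw [mem_bun, mem_bun]
    by_cases h1 : E m (sep T (fun n => ∃ e x, E e (img q (fun t => p1 t)) ∧ e ≠ emp ∧ ¬ E e R ∧
        E (opair e x) (app f n)))
    · exact Or.inl h1
    · by_cases h2 : E m (sep T (fun n => ∃ e z i l, E (lF e z i) (app f n) ∧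
        E l om ∧ E (res z l) (img q (fun t => p1 (p2 (p2 (p2 t))))) ∧
        ∀ y, E y Y → ¬ res y l = res z l))
      · exact Or.inr (Or.inl h2)
      · exact Or.inr (Or.inr (hc m hm h1 h2))
  have hgR : ∀ s' τ b, E (gR s' τ b) q → E τ (img q (fun t => p1 (p2 (p2 (p2 t))))) := by
    intro s' τ b h1
    refine mem_img.2 ⟨_, h1, ?_⟩
    simp only [gR, p1_opair, p2_opair]
  have hz0 : E (res (app g m) n) (SQ om) := (S.rsi (mem_BS.1 (H.g1 m hmT).1) hn).1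
  obtain ⟨r, hr, hqr, hfr, hgr⟩ := hrgq M I R Y (app f n0) (app f m) q s0 (res (app g m) n) hI
    (H.f1 n0 hn0) (H.f1 m hmT) hq (Sub.trans hpsub hpq) H.Y2
    (fun s τ b h1 => H.gl m n0 s τ b hmT hn0 h1)
    (by
      intro e x y he h1 h2
      by_contra hc
      refine hm1 (mem_sep.2 ⟨hmT, e, x, mem_img.2 ⟨_, h2, by rw [p1_opair]⟩, he, hc, h1⟩))
    (fun e v he => ⟨fun h1 => H.nd m n0 e v hmT hn0 he h1, fun h1 => H.nd n0 m e v hn0 hmT he h1⟩)
    (by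
      intro e y he hy
      obtain ⟨k', h1, h2⟩ := hpm e y he hy
      exact ⟨k', hpq _ h1, h2⟩)
    (by
      intro e z j' l s' b he h1 h2 h3
      by_contra hc
      refine hm2 (mem_sep.2 ⟨hmT, e, z, j', l, h1, h2, hgR _ _ _ h3, fun y hy h4 => ?_⟩)
      exact hc ⟨y, hy, h4⟩)
    hs0 hz0 hR (by
      intro b h1
      exact hm3 (mem_sep.2 ⟨hmT, hgR _ _ _ h1⟩))
  exact hcon r q (app g m) j n s0 (H.g1 m hmT).1 hDq hr hqr
    (hmono _ _ _ _ (H.F1 m hmT).1 hr hfr) hjn hgr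

end SW.SEP
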