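import Pool.Agent.H63.SEP.Stmts3

/-!
Project SEP, module RGQ: the amalgamation for the rigidity theorem.
-/

set_option linter.unusedVariables false
set_option linter.unusedSectionVars false
set_option synthInstance.maxSize 100000

namespace SW.SEP

open SW

section
variable {M : Type} [SetStr M] [ZF M]

/-- the new atoms -/
def RgqC (R p' q w : M) : Prop := ∃ e z j v s, E e R ∧ E (lF e z j) p' ∧ E (lV e v) q ∧
  E s NDS ∧ Sub s v ∧ E j (dmn s) ∧ w = gR s (res z (dmn s)) one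

theorem RgqC_df : Df (fun v : Fin 4 → M => RgqC (v 0) (v 1) (v 2) (v 3)) := by
  unfold RgqC; infer_instance

instance {R p' q : M} : Cl (fun w => RgqC R p' q w) := by unfold RgqC; infer_instance

/-- the finite set which contains the new atoms -/
noncomputable def rgqW (p' q : M) : M :=
  sUn (img (sep (prod p' q) (fun t => ∃ e z j v, t = opair (lF e z j) (lV e v)))
    (fun t => img (suc (dmn (p2 (p2 (p2 t))))) (fun n => gR (res (p2 (p2 (p2 t))) n)
      (res (p1 (p2 (p2 (p1 t)))) n) one)))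

theorem rgqW_mem {p' q w : M} : E w (rgqW p' q) ↔ ∃ e z j v n, E (lF e z j) p' ∧
    E (lV e v) q ∧ E n (suc (dmn v)) ∧ w = gR (res v n) (res z n) one := by
  unfold rgqW
  rw [mem_sUn]
  constructor
  · rintro ⟨y, hy, hw⟩
    rw [mem_img] at hy
    obtain ⟨t, ht, rfl⟩ := hy
    rw [mem_sep] at ht
    obtain ⟨h1, e, z, j, v, rfl⟩ := ht
    rw [mem_prod] at h1
    rw [mem_img] at hw
    obtain ⟨n, hn, rfl⟩ := hw
    simp only [p1_opair, p2_opair, lV, lF] at hn ⊢
    exact ⟨e, z, j, v, n, h1.1, h1.2, hn, rfl⟩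
  · rintro ⟨e, z, j, v, n, h1, h2, hn, rfl⟩
    refine ⟨_, mem_img.2 ⟨opair (lF e z j) (lV e v), mem_sep.2 ⟨mem_prod.2 ⟨h1, h2⟩,
      e, z, j, v, rfl⟩, rfl⟩, ?_⟩
    rw [mem_img]
    exact ⟨n, by simpa only [p1_opair, p2_opair, lV, lF] using hn, by
      simp only [p1_opair, p2_opair, lV, lF]⟩

theorem rgqW_fnt {p' q : M} (h1 : Fnt p') (h2 : Fnt q)
    (h3 : ∀ e v, E (lV e v) q → E (dmn v) om) : Fnt (rgqW p' q) := by
  unfold rgqW
  refine finF.sUn (finF.img _ inferInstance (finF.sub (finF.prod h1 h2) fun z hz =>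
    (mem_sep.1 hz).1)) ?_
  intro y hy
  rw [mem_img] at hy
  obtain ⟨t, ht, rfl⟩ := hy
  rw [mem_sep] at ht
  obtain ⟨h4, e, z, j, v, rfl⟩ := ht
  rw [mem_prod] at h4
  refine finF.img _ inferInstance (finF.nat (suc_mem_om ?_))
  simp only [p2_opair, lV]
  exact h3 e v h4.2

end

theorem sep_rgq (hatm : ATMStmt) (hpsf : PSFStmt) (hsqf : SQFStmt) : RGQStmt := by
  intro M _ _ I R Y p p' q s0 z0 hI hp hp' hq hpq hY ha hb hc hd hf hs0 hz0 hg hh
  have A := hatm M
  have P := hpsf M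
  have S := hsqf M
  have cq : Cond I q := mem_PS.1 hq
  have cp' : Cond I p' := mem_PS.1 hp'
  obtain ⟨q1, q2, q3, q4, q5, q6⟩ := cq
  obtain ⟨r1, r2, r3, r4, r5, r6⟩ := cp'
  -- the members of the union
  have hne : ∀ {e : M}, E e I → e ≠ emp := fun {e} he h => A.sy0 hI (h ▸ he)
  have hVR : ∀ {e v y : M}, E (lV e v) p' → E (opair e y) q → E e R ∧ E (lV e v) q := by
    intro e v y h1 h2
    have h3 : E e R := hb e _ _ (hne (P.lVm hp' h1).1) h1 h2
    exact ⟨h3, hpq _ ((hc e v h3).1 h1)⟩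
  have hkey : ∀ e z j v s b, E e R → E (lF e z j) p' → E (lV e v) q → E s NDS → Sub s v →
      E j (dmn s) → E (gR s (res z (dmn s)) b) q → b = one := by
    intro e z j v s b heR h1 h2 hs hsv hj h3
    have hds : E (dmn s) om := (S.dm hs).1
    obtain ⟨y, hy, hyz⟩ := hf e z j (dmn s) s b heR h1 hds h3
    obtain ⟨m, hm, hm'⟩ := hd e y heR hy
    by_cases hms : E m (dmn s)
    · have h4 := q4 e y m v s hm h2 hs hsv hms
      rw [hyz] at h4
      exact q2 _ _ _ _ h3 h4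
    · have hds0 : dmn s ≠ emp := fun h => not_mem_emp j (h ▸ hj)
      rcases hm' with rfl | ⟨v0, hv0, rfl⟩
      · exact absurd (emp_mem_ord (Ord_nat hds) hds0) hms
      · have hv0N : E v0 NDS := (P.lVm hp hv0).2
        have hvN : E v NDS := (P.lVm hq h2).2
        have hsv0 : Sub s v0 := by
          rcases q3 e v0 v (hpq _ hv0) h2 with h5 | h5
          · rcases S.cmp hs hv0N (S.dm hvN).2 hsv h5 with h6 | h6
            · exact h6
            · rcases S.cmpd hv0N hs h6 with h7 | h7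
              · rw [h7]; exact Sub.refl s
              · exact absurd h7 hms
          · exact Sub.trans hsv h5
        have h6 := r4 e z j v0 s h1 ((hc e v0 heR).2 hv0) hs hsv0 hj
        exact q2 _ _ _ _ h3 (hpq _ (ha _ _ _ h6))
  have hWF : Fnt (sep (rgqW p' q) (fun w => RgqC R p' q w)) :=
    finF.sub (rgqW_fnt (P.fnt hp') (P.fnt hq) fun e v h => (S.dm (P.lVm hq h).2).1)
      fun z hz => (mem_sep.1 hz).1
  have hmem : ∀ {w : M}, E w (bun (bun q p') (ins (gR s0 z0 emp)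
      (sep (rgqW p' q) (fun w => RgqC R p' q w)))) ↔
      (E w q ∨ E w p') ∨ (RgqC R p' q w ∨ w = gR s0 z0 emp) := by
    intro w
    rw [mem_bun, mem_bun, mem_ins, mem_sep]
    constructor
    · rintro (h | h | h)
      · exact Or.inl h
      · exact Or.inr (Or.inl h.2)
      · exact Or.inr (Or.inr h)
    · rintro (h | h | h)
      · exact Or.inl h
      · refine Or.inr (Or.inl ⟨?_, h⟩)
        obtain ⟨e, z, j, v, s, heR, h1, h2, hs, hsv, hj, rfl⟩ := h
        have hvN : E v NDS := (P.lVm hq h2).2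
        obtain ⟨h3, h4⟩ := S.sub hs (S.dm hvN).2 hsv
        have h5 : E (dmn s) (suc (dmn v)) := by
          rw [mem_suc]
          exact (Ord.sub_iff (Ord_nat (S.dm hs).1) (Ord_nat (S.dm hvN).1)).1 h3
        refine rgqW_mem.2 ⟨e, z, j, v, dmn s, h1, h2, h5, ?_⟩
        rw [← h4]
      · exact Or.inr (Or.inr h)
  have hRm : ∀ {s τ b : M}, E (gR s τ b) (bun (bun q p') (ins (gR s0 z0 emp)
      (sep (rgqW p' q) (fun w => RgqC R p' q w)))) →
      E (gR s τ b) q ∨ (s = s0 ∧ τ = z0 ∧ b = emp) ∨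
      (b = one ∧ ∃ e z j v, E e R ∧ E (lF e z j) p' ∧ E (lV e v) q ∧ E s NDS ∧ Sub s v ∧
        E j (dmn s) ∧ τ = res z (dmn s)) := by
    intro s τ b h
    rcases hmem.1 h with (h | h) | h | h
    · exact Or.inl h
    · exact Or.inl (hpq _ (ha _ _ _ h))
    · obtain ⟨e, z, j, v, s', heR, h1, h2, hs, hsv, hj, h3⟩ := h
      rw [A.RR] at h3
      obtain ⟨rfl, rfl, rfl⟩ := h3
      exact Or.inr (Or.inr ⟨rfl, e, z, j, v, heR, h1, h2, hs, hsv, hj, rfl⟩)
    · exact Or.inr (Or.inl (A.RR.1 h))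
  have hVm : ∀ {e v : M}, E (lV e v) (bun (bun q p') (ins (gR s0 z0 emp)
      (sep (rgqW p' q) (fun w => RgqC R p' q w)))) → E (lV e v) q ∨ E (lV e v) p' := by
    intro e v h
    rcases hmem.1 h with h | h | h
    · exact h
    · obtain ⟨e', z, j, v', s', heR, h1, h2, hs, hsv, hj, h3⟩ := h
      exact absurd h3.symm A.RV
    · exact absurd h.symm A.RV
  have hFm : ∀ {e z j : M}, E (lF e z j) (bun (bun q p') (ins (gR s0 z0 emp)
      (sep (rgqW p' q) (fun w => RgqC R p' q w)))) → E (lF e z j) q ∨ E (lF e z j) p' := by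
    intro e z j h
    rcases hmem.1 h with h | h | h
    · exact h
    · obtain ⟨e', z', j', v', s', heR, h1, h2, hs, hsv, hj, h3⟩ := h
      exact absurd h3.symm A.RF
    · exact absurd h.symm A.RF
  have hqr : Sub q (bun (bun q p') (ins (gR s0 z0 emp)
      (sep (rgqW p' q) (fun w => RgqC R p' q w)))) := fun z hz => hmem.2 (Or.inl (Or.inl hz))
  have hpr : Sub p' (bun (bun q p') (ins (gR s0 z0 emp)
      (sep (rgqW p' q) (fun w => RgqC R p' q w)))) := fun z hz => hmem.2 (Or.inl (Or.inr hz))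
  refine ⟨bun (bun q p') (ins (gR s0 z0 emp) (sep (rgqW p' q) (fun w => RgqC R p' q w))),
    mem_PS.2 ⟨⟨?_, ?_⟩, ?_, ?_, ?_, ?_, ?_⟩, hqr, hpr, hmem.2 (Or.inr (Or.inr rfl))⟩
  · exact finF.bun (finF.bun (P.fnt hq) (P.fnt hp')) (finF.ins hWF)
  · intro a h
    rcases hmem.1 h with (h | h) | h | h
    · exact q1.2 a h
    · exact r1.2 a h
    · obtain ⟨e, z, j, v, s, heR, h1, h2, hs, hsv, hj, rfl⟩ := h
      refine Or.inl ⟨s, res z (dmn s), one, hs, ?_, A.mem2.2 (Or.inr rfl), rfl⟩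
      exact (S.rsi (mem_BS.1 (P.lFm hp' h1).2.1) (S.dm hs).1).1
    · exact Or.inl ⟨s0, z0, emp, hs0, hz0, A.mem2.2 (Or.inl rfl), h⟩
  · intro s τ b b' h h'
    rcases hRm h with h1 | ⟨rfl, rfl, rfl⟩ | ⟨rfl, e, z, j, v, heR, h1, h2, hs, hsv, hj, rfl⟩
    · rcases hRm h' with h1' | ⟨rfl, rfl, rfl⟩ | ⟨rfl, e, z, j, v, heR, h1', h2, hs, hsv, hj, rfl⟩
      · exact q2 _ _ _ _ h1 h1'
      · exact absurd h1 (hh _)
      · exact hkey e z j v s b heR h1' h2 hs hsv hj h1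
    · rcases hRm h' with h1' | ⟨_, _, h3⟩ | ⟨rfl, e, z, j, v, heR, h1', h2, hs, hsv, hj, h3⟩
      · exact absurd h1' (hh _)
      · exact h3.symm
      · exact absurd hsv (hg e v heR h2)
    · rcases hRm h' with h1' | ⟨rfl, _, _⟩ | ⟨h3, _⟩
      · exact (hkey e z j v s b' heR h1 h2 hs hsv hj h1').symm
      · exact absurd hsv (hg e v heR h2)
      · exact h3.symm
  · intro e v v' h h'
    rcases hVm h with h1 | h1 <;> rcases hVm h' with h1' | h1'
    · exact q3 e v v' h1 h1'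
    · exact q3 e v v' h1 (hVR h1' h1).2
    · exact q3 e v v' (hVR h1 h1').2 h1'
    · exact r3 e v v' h1 h1'
  · intro e z j v s h h' hs hsv hj
    rcases hFm h with h1 | h1 <;> rcases hVm h' with h1' | h1'
    · exact hqr _ (q4 e z j v s h1 h1' hs hsv hj)
    · exact hqr _ (q4 e z j v s h1 (hVR h1' h1).2 hs hsv hj)
    · have heR : E e R := hb e _ _ (hne (P.lFm hp' h1).1) h1 h1'
      exact hmem.2 (Or.inr (Or.inl ⟨e, z, j, v, s, heR, h1, h1', hs, hsv, hj, rfl⟩))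
    · exact hpr _ (r4 e z j v s h1 h1' hs hsv hj)
  · intro e v h hN n a hna
    rcases hVm h with h1 | h1
    · exact q5 e v h1 hN n a hna
    · exact r5 e v h1 hN n a hna
  · intro B r q0 x i t v h
    rcases hVm h with h1 | h1
    · obtain ⟨h2, h3⟩ := q6 B r q0 x i t v h1
      refine ⟨Sub.trans h2 hqr, fun n a hna => ?_⟩
      obtain ⟨a0, c', c, h4, h5, h6, h7, ⟨q', h8, h9⟩, v', h10, h11⟩ := h3 n a hna
      exact ⟨a0, c', c, h4, h5, h6, h7, ⟨q', Sub.trans h8 hqr, h9⟩, v', hqr _ h10, h11⟩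
    · obtain ⟨h2, h3⟩ := r6 B r q0 x i t v h1
      refine ⟨Sub.trans h2 hpr, fun n a hna => ?_⟩
      obtain ⟨a0, c', c, h4, h5, h6, h7, ⟨q', h8, h9⟩, v', h10, h11⟩ := h3 n a hna
      exact ⟨a0, c', c, h4, h5, h6, h7, ⟨q', Sub.trans h8 hpr, h9⟩, v', hpr _ h10, h11⟩

end SW.SEP
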